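import Pool.Agent.H5.BP.Stm

/-!
Project BP: circle averages of finite Blaschke products (`S_avg`), composition (`S_comp`),
monotonicity (`S_U`).
-/

set_option autoImplicit false

namespace Pool.Agent.H93.BP

open Complex Metric Set Filter Topology Real Pool.Agent.H5.BP

lemma avg_sub (w : ℂ) {r : ℝ} (hr : 0 < r) :
    Real.circleAverage (fun z => Real.log ‖z - w‖) 0 r = Real.log (max r ‖w‖) := by
  have h := circleAverage_log_norm_sub_const_eq_log_radius_add_posLog (a := w) (c := 0) hr.ne'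
  simp only [zero_sub, norm_neg] at h
  refine h.trans ?_
  rcases le_or_gt ‖w‖ r with h1 | h1
  · rw [max_eq_left h1, add_eq_left, posLog_eq_zero_iff, abs_of_nonneg (by positivity),
      inv_mul_le_one₀ hr]
    exact h1
  · rw [max_eq_right h1.le, posLog_eq_log]
    · rw [Real.log_mul (inv_ne_zero hr.ne') (by linarith), Real.log_inv]
      ring
    · rw [abs_of_nonneg (by positivity), ← div_eq_inv_mul, one_le_div₀ hr]
      exact h1.le

lemma int_sub (w : ℂ) (r : ℝ) : CircleIntegrable (fun z => Real.log ‖z - w‖) 0 r :=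
  circleIntegrable_log_norm_sub_const r

lemma avg_one (w : ℂ) (hw : ‖w‖ < 1) {r : ℝ} (hr : 0 < r) (hr1 : r < 1) :
    CircleIntegrable (fun z => Real.log ‖1 - (starRingEnd ℂ) w * z‖) 0 r ∧
    Real.circleAverage (fun z => Real.log ‖1 - (starRingEnd ℂ) w * z‖) 0 r = 0 := by
  rcases eq_or_ne w 0 with rfl | h0
  · simp only [map_zero, zero_mul, sub_zero, norm_one, Real.log_one]
    exact ⟨circleIntegrable_const 0 0 r, circleAverage_const 0 0 r⟩
  · have hc : (starRingEnd ℂ) w ≠ 0 := by simpa using h0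
    have hwn : 0 < ‖w‖ := norm_pos_iff.2 h0
    have e : Set.EqOn (fun z => Real.log ‖1 - (starRingEnd ℂ) w * z‖)
        (fun z => Real.log ‖w‖ + Real.log ‖z - ((starRingEnd ℂ) w)⁻¹‖) (sphere 0 |r|) := by
      intro z hz
      rw [mem_sphere_zero_iff_norm, abs_of_pos hr] at hz
      have h1 : 1 - (starRingEnd ℂ) w * z = -(starRingEnd ℂ) w * (z - ((starRingEnd ℂ) w)⁻¹) := by
        field_simp; ring
      have h2 : z - ((starRingEnd ℂ) w)⁻¹ ≠ 0 := by
        intro h
        have : ‖z‖ = ‖((starRingEnd ℂ) w)⁻¹‖ := by rw [sub_eq_zero.1 h]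
        rw [hz, norm_inv, Complex.norm_conj] at this
        have h3 : 1 < ‖w‖⁻¹ := (one_lt_inv₀ hwn).2 hw
        linarith
      simp only
      rw [h1, norm_mul, norm_neg, Complex.norm_conj, Real.log_mul hwn.ne' (norm_ne_zero_iff.2 h2)]
    have hi : CircleIntegrable (fun z => Real.log ‖w‖ + Real.log ‖z - ((starRingEnd ℂ) w)⁻¹‖) 0 r :=
      (circleIntegrable_const _ _ _).add (int_sub _ _)
    refine ⟨?_, ?_⟩
    · refine hi.congr_codiscreteWithin ?_
      filter_upwards [Filter.self_mem_codiscreteWithin (sphere (0 : ℂ) |r|)] with z hz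
      exact (e hz).symm
    · rw [circleAverage_congr_sphere e, circleAverage_fun_add (circleIntegrable_const _ _ _)
        (int_sub _ _), circleAverage_const, avg_sub _ hr, norm_inv, Complex.norm_conj]
      have h3 : 1 < ‖w‖⁻¹ := (one_lt_inv₀ hwn).2 hw
      rw [max_eq_right (by linarith), Real.log_inv]
      ring

lemma tau_norm (w z : ℂ) : ‖tau w z‖ = ‖z - w‖ / ‖1 - (starRingEnd ℂ) w * z‖ := norm_div _ _

lemma den_ne {w z : ℂ} (hw : ‖w‖ < 1) (hz : ‖z‖ ≤ 1) : 1 - (starRingEnd ℂ) w * z ≠ 0 := by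
  intro h
  have h1 : (starRingEnd ℂ) w * z = 1 := (sub_eq_zero.1 h).symm
  have h2 : ‖(starRingEnd ℂ) w * z‖ = 1 := by rw [h1, norm_one]
  rw [norm_mul, Complex.norm_conj] at h2
  nlinarith [norm_nonneg w, norm_nonneg z]

lemma tau_avg {w : ℂ} (hw : ‖w‖ < 1) {r : ℝ} (hr : 0 < r) (hr1 : r < 1) :
    CircleIntegrable (fun z => -Real.log ‖tau w z‖) 0 r ∧
    Real.circleAverage (fun z => -Real.log ‖tau w z‖) 0 r = -Real.log (max r ‖w‖) := by
  obtain ⟨i1, a1⟩ := avg_one w hw hr hr1
  have hi : CircleIntegrable (fun z => Real.log ‖1 - (starRingEnd ℂ) w * z‖ - Real.log ‖z - w‖) 0 r :=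
    i1.sub (int_sub _ _)
  have hae : (fun z => Real.log ‖1 - (starRingEnd ℂ) w * z‖ - Real.log ‖z - w‖)
      =ᶠ[codiscreteWithin (sphere (0 : ℂ) |r|)] fun z => -Real.log ‖tau w z‖ := by
    filter_upwards [Filter.self_mem_codiscreteWithin (sphere (0 : ℂ) |r|),
      compl_finite_mem_codiscreteWithin (Set.finite_singleton w)] with z hz hzw
    rw [mem_sphere_zero_iff_norm, abs_of_pos hr] at hz
    have h1 : z - w ≠ 0 := sub_ne_zero.2 (by simpa using hzw)
    rw [tau_norm, Real.log_div (norm_ne_zero_iff.2 h1)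
      (norm_ne_zero_iff.2 (den_ne hw (by linarith)))]
    ring
  refine ⟨hi.congr_codiscreteWithin hae, ?_⟩
  rw [← circleAverage_congr_codiscreteWithin hae hr.ne', circleAverage_fun_sub i1 (int_sub _ _), a1,
    avg_sub _ hr, zero_sub]

lemma tau_ne {w z : ℂ} (hw : ‖w‖ < 1) (hz : ‖z‖ ≤ 1) (h : z ≠ w) : tau w z ≠ 0 :=
  div_ne_zero (sub_ne_zero.2 h) (den_ne hw hz)

lemma prod_avg (Z : Multiset ℂ) (hZ : ∀ w ∈ Z, ‖w‖ < 1) {r : ℝ} (hr : 0 < r) (hr1 : r < 1) :
    CircleIntegrable (fun z => -Real.log ‖(Z.map fun w => tau w z).prod‖) 0 r ∧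
    Real.circleAverage (fun z => -Real.log ‖(Z.map fun w => tau w z).prod‖) 0 r =
      (Z.map fun w => -Real.log (max r ‖w‖)).sum := by
  induction Z using Multiset.induction with
  | empty =>
    simp only [Multiset.map_zero, Multiset.prod_zero, norm_one, Real.log_one, neg_zero,
      Multiset.sum_zero]
    exact ⟨circleIntegrable_const 0 0 r, circleAverage_const 0 0 r⟩
  | cons a Z ih =>
    obtain ⟨i1, a1⟩ := ih fun w hw => hZ w (Multiset.mem_cons_of_mem hw)
    obtain ⟨i2, a2⟩ := tau_avg (hZ a (Multiset.mem_cons_self a Z)) hr hr1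
    have hae : (fun z => -Real.log ‖tau a z‖ + -Real.log ‖(Z.map fun w => tau w z).prod‖)
        =ᶠ[codiscreteWithin (sphere (0 : ℂ) |r|)]
        fun z => -Real.log ‖((a ::ₘ Z).map fun w => tau w z).prod‖ := by
      filter_upwards [Filter.self_mem_codiscreteWithin (sphere (0 : ℂ) |r|),
        compl_finite_mem_codiscreteWithin (Set.toFinite {w | w ∈ (a ::ₘ Z).toFinset})] with z hz hzw
      rw [mem_sphere_zero_iff_norm, abs_of_pos hr] at hz
      have h0 : ∀ w ∈ a ::ₘ Z, tau w z ≠ 0 := by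
        intro w hw
        refine tau_ne (hZ w hw) (by linarith) ?_
        rintro rfl
        exact hzw (by simpa using hw)
      have h1 : (Z.map fun w => tau w z).prod ≠ 0 := by
        refine Multiset.prod_ne_zero ?_
        intro h
        obtain ⟨w, hw, hw0⟩ := Multiset.mem_map.1 h
        exact h0 w (Multiset.mem_cons_of_mem hw) hw0
      rw [Multiset.map_cons, Multiset.prod_cons, norm_mul, Real.log_mul
        (norm_ne_zero_iff.2 (h0 a (Multiset.mem_cons_self a Z))) (norm_ne_zero_iff.2 h1)]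
      ring
    refine ⟨(i2.add i1).congr_codiscreteWithin hae, ?_⟩
    rw [← circleAverage_congr_codiscreteWithin hae hr.ne', circleAverage_fun_add i2 i1, a1, a2,
      Multiset.map_cons, Multiset.sum_cons]

theorem avg : S_avg := by
  intro Z l g hl hZ hg r hr hr1
  rw [← (prod_avg Z hZ hr hr1).2]
  refine circleAverage_congr_sphere fun z hz => ?_
  rw [mem_sphere_zero_iff_norm, abs_of_pos hr] at hz
  rw [hg z (by linarith), norm_mul, hl, one_mul]

/-- finite Blaschke products are bounded by one -/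
lemma fb_le {f : ℂ → ℂ} (hf : FB f) {z : ℂ} (hz : ‖z‖ ≤ 1) : ‖f z‖ ≤ 1 := by
  have hd : DiffContOnCl ℂ f (ball 0 1) := by
    refine ⟨fun x hx => ((hf.an x (ball_subset_closedBall hx)).differentiableAt).differentiableWithinAt,
      ?_⟩
    rw [closure_ball _ one_ne_zero]
    exact fun x hx => (hf.an x hx).continuousAt.continuousWithinAt
  refine Complex.norm_le_of_forall_mem_frontier_norm_le isBounded_ball hd (C := 1) ?_ ?_
  · intro w hw
    rw [frontier_ball _ one_ne_zero, mem_sphere_zero_iff_norm] at hw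
    exact (hf.uni w hw).le
  · rw [closure_ball _ one_ne_zero, mem_closedBall_zero_iff]
    exact hz

theorem comp (hfac : S_fac) (havg : S_avg) : S_comp := by
  intro Q ψ a l Z hQ hψ ha hl hZ hQZ r hr hr1
  have hch : ∀ w : ℂ, ∃ (Y : Multiset ℂ) (m : ℂ), ‖w‖ < 1 →
      ‖m‖ = 1 ∧ (∀ v ∈ Y, ‖v‖ < 1) ∧ ∀ z, ‖z‖ ≤ 1 → tau w (ψ z) = m * (Y.map fun v => tau v z).prod := by
    intro w
    by_cases hw : ‖w‖ < 1
    · obtain ⟨Y, m, h⟩ := hfac ψ hψ w hw
      exact ⟨Y, m, fun _ => h⟩
    · exact ⟨0, 0, fun h => absurd h hw⟩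
  choose Y m hYm using hch
  have hU : ∀ w ∈ Z, U r w ψ = ((Y w).map fun v => -Real.log (max r ‖v‖)).sum := by
    intro w hw
    obtain ⟨h1, h2, h3⟩ := hYm w (hZ w hw)
    exact havg (Y w) (m w) (fun z => tau w (ψ z)) h1 h2 (fun z hz => h3 z hz.le) r hr hr1
  have hprod : ∀ z, ‖z‖ ≤ 1 → tau a (Q (ψ z)) =
      (l * (Z.map m).prod) * ((Z.bind Y).map fun v => tau v z).prod := by
    intro z hz
    rw [hQZ (ψ z) (fb_le hψ hz), mul_assoc]
    congr 1
    rw [Multiset.map_bind, Multiset.prod_bind, ← Multiset.prod_map_mul]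
    refine congrArg Multiset.prod (Multiset.map_congr rfl fun w hw => ?_)
    exact (hYm w (hZ w hw)).2.2 z hz
  have hl' : ‖l * (Z.map m).prod‖ = 1 := by
    rw [norm_mul, hl, one_mul]
    have : ∀ W : Multiset ℂ, (∀ w ∈ W, ‖w‖ < 1) → ‖(W.map m).prod‖ = 1 := by
      intro W
      induction W using Multiset.induction with
      | empty => simp
      | cons b W ih =>
        intro hW
        rw [Multiset.map_cons, Multiset.prod_cons, norm_mul,
          ih fun w hw => hW w (Multiset.mem_cons_of_mem hw),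
          (hYm b (hW b (Multiset.mem_cons_self b W))).1, one_mul]
    exact this Z hZ
  have hZ' : ∀ v ∈ Z.bind Y, ‖v‖ < 1 := by
    intro v hv
    obtain ⟨w, hw, hv⟩ := Multiset.mem_bind.1 hv
    exact (hYm w (hZ w hw)).2.1 v hv
  have h := havg (Z.bind Y) (l * (Z.map m).prod) (fun z => tau a (Q (ψ z))) hl' hZ'
    (fun z hz => hprod z hz.le) r hr hr1
  have e : U r a (Q ∘ ψ) = Real.circleAverage (fun z => -Real.log ‖tau a (Q (ψ z))‖) 0 r := rfl
  rw [e, h, Multiset.map_bind, Multiset.sum_bind]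
  exact congrArg Multiset.sum (Multiset.map_congr rfl fun w hw => (hU w hw).symm)

theorem mono (hfac : S_fac) (havg : S_avg) : S_U := by
  intro f a hf ha
  obtain ⟨Z, l, hl, hZ, hfz⟩ := hfac f hf a ha
  have hU : ∀ r, 0 < r → r < 1 → U r a f = (Z.map fun w => -Real.log (max r ‖w‖)).sum :=
    fun r hr hr1 => havg Z l (fun z => tau a (f z)) hl hZ (fun z hz => hfz z hz.le) r hr hr1
  refine ⟨?_, ?_, ?_⟩
  · intro r r' hr hrr hr'
    rw [hU r hr (by linarith), hU r' (by linarith) hr']
    refine Multiset.sum_map_le_sum_map _ _ fun w hw => ?_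
    exact neg_le_neg (Real.log_le_log (lt_max_of_lt_left hr) (max_le_max_right _ hrr))
  · intro r hr hr1
    rw [hU r hr hr1]
    refine Multiset.sum_nonneg fun x hx => ?_
    obtain ⟨w, hw, rfl⟩ := Multiset.mem_map.1 hx
    have := Real.log_nonpos (le_max_of_le_left hr.le) (max_le hr1.le (hZ w hw).le)
    linarith
  · intro ha0 r hr hr1
    rw [hU r hr hr1]
    have h0 := hfz 0 (by simp)
    rw [hf.zero] at h0
    have h1 : ‖a‖ = (Z.map fun w => ‖w‖).prod := by
      have h2 : tau a 0 = -a := by simp [tau]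
      have h3 : (Z.map fun w => tau w 0) = Z.map fun w => -w := by
        refine Multiset.map_congr rfl fun w _ => by simp [tau]
      rw [h2, h3] at h0
      have h4 := congrArg norm h0
      rw [norm_neg, norm_mul, hl, one_mul] at h4
      rw [h4]
      clear h4 h3 h0 hU hfz hZ
      induction Z using Multiset.induction with
      | empty => simp
      | cons b W ih =>
        rw [Multiset.map_cons, Multiset.prod_cons, norm_mul, norm_neg, ih, Multiset.map_cons,
          Multiset.prod_cons]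
    have hpos : ∀ w ∈ Z, w ≠ 0 := by
      rintro w hw rfl
      have : (Z.map fun w => ‖w‖).prod = 0 :=
        Multiset.prod_eq_zero (Multiset.mem_map.2 ⟨0, hw, norm_zero⟩)
      rw [this] at h1
      exact ha0 (norm_eq_zero.1 h1)
    have h5 : -Real.log ‖a‖ = (Z.map fun w => -Real.log ‖w‖).sum := by
      rw [h1]
      clear h1 h0 hU hfz hZ
      induction Z using Multiset.induction with
      | empty => simp
      | cons b W ih =>
        have hb := hpos b (Multiset.mem_cons_self b W)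
        have hW := ih fun w hw => hpos w (Multiset.mem_cons_of_mem hw)
        have hne : (W.map fun w => ‖w‖).prod ≠ 0 := by
          refine Multiset.prod_ne_zero ?_
          intro h
          obtain ⟨w, hw, hw0⟩ := Multiset.mem_map.1 h
          exact hpos w (Multiset.mem_cons_of_mem hw) (norm_eq_zero.1 hw0)
        rw [Multiset.map_cons, Multiset.prod_cons, Real.log_mul (norm_ne_zero_iff.2 hb) hne,
          Multiset.map_cons, Multiset.sum_cons, ← hW]
        ring
    rw [h5]
    refine Multiset.sum_map_le_sum_map _ _ fun w hw => ?_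
    exact neg_le_neg (Real.log_le_log (norm_pos_iff.2 (hpos w hw)) (le_max_right _ _))

end Pool.Agent.H93.BP
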