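import Pool.Agent.H5.BP.Basic
import Pool.Agent.H5.BP.Main

/-!
Project BP: stability (`S_stab`).
-/

set_option autoImplicit false

namespace Pool.Agent.H93.BP

open Complex Metric Set Filter Topology Pool.Agent.H5.BP

lemma exists_radius {f : ℂ → ℂ} (hf : DifferentiableOn ℂ f (ball 0 1)) (h0 : deriv f 0 ≠ 0)
    {r₁ R : ℝ} (h2 : r₁ < R) (h3 : R < 1) (a : ℂ) :
    ∃ r, r₁ ≤ r ∧ r ≤ R ∧ ∀ z : ℂ, ‖z‖ = r → f z ≠ a := by
  by_contra hcon
  push Not at hcon
  have hinf : {z : ℂ | ‖z‖ ≤ R ∧ f z = a}.Infinite := by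
    intro hfin
    have himg : Icc r₁ R ⊆ norm '' {z : ℂ | ‖z‖ ≤ R ∧ f z = a} := by
      intro r hr
      obtain ⟨z, hz, hza⟩ := hcon r hr.1 hr.2
      exact ⟨z, ⟨by rw [hz]; exact hr.2, hza⟩, hz⟩
    exact (Icc_infinite h2) ((hfin.image _).subset himg)
  have h1 : {z : ℂ | ‖z‖ ≤ R ∧ f z = a} ⊆ closedBall (0 : ℂ) R := fun z hz => by
    simpa using hz.1
  obtain ⟨z, hz, hacc⟩ := Set.Infinite.exists_accPt_of_subset_isCompact hinf
    (isCompact_closedBall (0 : ℂ) R) h1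
  have h4 : ∃ᶠ w in 𝓝[≠] z, f w = (fun _ => a) w := by
    rw [accPt_iff_frequently_nhdsNE] at hacc
    exact hacc.mono fun w hw => hw.2
  have hz1 : z ∈ ball (0 : ℂ) 1 := by
    rw [mem_closedBall_zero_iff] at hz
    rw [mem_ball_zero_iff]
    linarith
  have h5 := (hf.analyticOnNhd isOpen_ball).eqOn_of_preconnected_of_frequently_eq
    analyticOnNhd_const (convex_ball (0 : ℂ) 1).isPreconnected hz1 h4
  apply h0
  have h6 : f =ᶠ[𝓝 0] fun _ => a := by
    filter_upwards [isOpen_ball.mem_nhds (mem_ball_self (x := (0 : ℂ)) one_pos)] with w hw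
    exact h5 hw
  rw [h6.deriv_eq, deriv_const]

lemma exists_kappa {f : ℂ → ℂ} (hf : DifferentiableOn ℂ f (ball 0 1)) (h0 : deriv f 0 ≠ 0)
    {r₁ R : ℝ} (h1 : 0 < r₁) (h2 : r₁ < R) (h3 : R < 1) {K : Set ℂ} (hK : IsCompact K) :
    ∃ κ : ℝ, 0 < κ ∧ ∀ a ∈ K, ∃ r, r₁ ≤ r ∧ r ≤ R ∧ ∀ z : ℂ, ‖z‖ = r → κ ≤ ‖f z - a‖ := by
  refine hK.induction_on (p := fun S => ∃ κ : ℝ, 0 < κ ∧ ∀ a ∈ S, ∃ r, r₁ ≤ r ∧ r ≤ R ∧
    ∀ z : ℂ, ‖z‖ = r → κ ≤ ‖f z - a‖) ?_ ?_ ?_ ?_
  · exact ⟨1, one_pos, fun a ha => absurd ha (Set.notMem_empty a)⟩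
  · rintro s t hst ⟨κ, hκ, h⟩
    exact ⟨κ, hκ, fun a ha => h a (hst ha)⟩
  · rintro s t ⟨κ, hκ, h⟩ ⟨κ', hκ', h'⟩
    refine ⟨min κ κ', lt_min hκ hκ', ?_⟩
    rintro a (ha | ha)
    · obtain ⟨r, a1, a2, a3⟩ := h a ha
      exact ⟨r, a1, a2, fun z hz => (min_le_left _ _).trans (a3 z hz)⟩
    · obtain ⟨r, a1, a2, a3⟩ := h' a ha
      exact ⟨r, a1, a2, fun z hz => (min_le_right _ _).trans (a3 z hz)⟩
  · intro a _
    obtain ⟨r, a1, a2, a3⟩ := exists_radius hf h0 h2 h3 a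
    have hr0 : 0 < r := by linarith
    have hc : ContinuousOn (fun z => ‖f z - a‖) (sphere (0 : ℂ) r) := by
      refine ((hf.continuousOn.mono fun z hz => ?_).sub continuousOn_const).norm
      rw [mem_sphere_zero_iff_norm] at hz
      rw [mem_ball_zero_iff, hz]
      linarith
    have hne : (sphere (0 : ℂ) r).Nonempty := NormedSpace.sphere_nonempty.2 hr0.le
    obtain ⟨z₀, hz₀, hmin⟩ := (isCompact_sphere (0 : ℂ) r).exists_isMinOn hne hc
    have hpos : 0 < ‖f z₀ - a‖ := norm_pos_iff.2 (sub_ne_zero.2 (a3 z₀ (by simpa using hz₀)))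
    refine ⟨ball a (‖f z₀ - a‖ / 2), mem_nhdsWithin_of_mem_nhds (ball_mem_nhds a (by positivity)),
      ‖f z₀ - a‖ / 2, by positivity, fun b hb => ⟨r, a1, a2, fun z hz => ?_⟩⟩
    have e1 : ‖f z₀ - a‖ ≤ ‖f z - a‖ := hmin (by simpa using hz)
    have e2 : ‖b - a‖ < ‖f z₀ - a‖ / 2 := by simpa [dist_eq_norm] using hb
    have e3 : ‖f z - a‖ ≤ ‖f z - b‖ + ‖b - a‖ := by
      have : f z - a = (f z - b) + (b - a) := by ring
      rw [this]
      exact norm_add_le _ _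
    linarith

lemma log_diff {c x y : ℝ} (hc : 0 < c) (hx : c ≤ x) (hy : c ≤ y) :
    Real.log x - Real.log y ≤ |x - y| / c := by
  have hx0 : 0 < x := by linarith
  have hy0 : 0 < y := by linarith
  rw [← Real.log_div hx0.ne' hy0.ne']
  refine (Real.log_le_sub_one_of_pos (div_pos hx0 hy0)).trans ?_
  have h1 : x / y - 1 = (x - y) / y := by field_simp
  rw [h1]
  refine (div_le_div_of_nonneg_right (le_abs_self _) hy0.le).trans ?_
  exact div_le_div_of_nonneg_left (abs_nonneg _) hc hy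

lemma ci {g : ℂ → ℂ} {r : ℝ} {a : ℂ} (hr : 0 ≤ r) (hg : ContinuousOn g (sphere 0 r)) (ha : ‖a‖ < 1)
    (h1 : ∀ z ∈ sphere (0 : ℂ) r, ‖g z‖ ≤ 1) (h2 : ∀ z ∈ sphere (0 : ℂ) r, g z ≠ a) :
    CircleIntegrable (fun z => -Real.log ‖tau a (g z)‖) 0 r := by
  refine ContinuousOn.circleIntegrable hr ?_
  have hd : ∀ z ∈ sphere (0 : ℂ) r, 1 - (starRingEnd ℂ) a * g z ≠ 0 := fun z hz => Pool.Agent.H5.BP.den_ne ha (h1 z hz)
  refine (ContinuousOn.log ?_ ?_).neg
  · exact ((hg.sub continuousOn_const).div (continuousOn_const.sub (continuousOn_const.mul hg)) hd).norm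
  · intro z hz
    exact norm_ne_zero_iff.2 (div_ne_zero (sub_ne_zero.2 (h2 z hz)) (hd z hz))

theorem stab (hSU : S_U) : S_stab := by
  intro f f' r₁ R ε B hf hlim hd hr0 hrR hR1 hε0 hε1 hεr hB hm
  have hf' : DifferentiableOn ℂ f' (ball 0 1) :=
    hlim.differentiableOn (Eventually.of_forall fun m => (hf m).differentiableOn) isOpen_ball
  obtain ⟨κ, hκ, hκr⟩ := exists_kappa hf' hd hr0 hrR hR1 (isCompact_closedBall (0 : ℂ) (1 - ε))
  obtain ⟨η, hη⟩ : ∃ η : ℝ, η = min (min (κ / 8) (ε / 2)) (min (ε * κ / 16) (ε ^ 2 / 16)) := ⟨_, rfl⟩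
  have hη0 : 0 < η := by
    rw [hη]
    exact lt_min (lt_min (by positivity) (by positivity)) (lt_min (by positivity) (by positivity))
  have hη1 : η ≤ κ / 8 := by rw [hη]; exact (min_le_left _ _).trans (min_le_left _ _)
  have hη2 : η ≤ ε / 2 := by rw [hη]; exact (min_le_left _ _).trans (min_le_right _ _)
  have hη3 : η ≤ ε * κ / 16 := by rw [hη]; exact (min_le_right _ _).trans (min_le_left _ _)
  have hη4 : η ≤ ε ^ 2 / 16 := by rw [hη]; exact (min_le_right _ _).trans (min_le_right _ _)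
  have hu := (tendstoLocallyUniformlyOn_iff_forall_isCompact isOpen_ball).1 hlim (closedBall 0 R)
    (closedBall_subset_ball hR1) (isCompact_closedBall 0 R)
  obtain ⟨m₀, hm₀⟩ := eventually_atTop.1 (Metric.tendstoUniformlyOn_iff.1 hu (κ / 8) (by positivity))
  refine ⟨η, hη0, m₀, fun m hmm g hg hg1 hgf a ha => ?_⟩
  obtain ⟨r, b1, b2, b3⟩ := hκr a (by simpa using ha)
  refine ⟨r, by linarith, b2, ?_⟩
  have hrp : 0 < r := by linarith
  have hr1 : r < 1 := by linarith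
  -- the perturbed point
  obtain ⟨a', ha'1, ha'B⟩ := (infinite_of_mem_nhds a (ball_mem_nhds a hη0)).exists_notMem_finite hB
  have ha'2 : ‖a' - a‖ ≤ η := by
    have : ‖a' - a‖ < η := by simpa [dist_eq_norm] using ha'1
    exact this.le
  have ha'3 : ‖a'‖ ≤ 1 - ε / 2 := by
    have : a' = (a' - a) + a := by ring
    rw [this]
    refine (norm_add_le _ _).trans ?_
    linarith
  have ha1 : ‖a‖ < 1 := by linarith
  have ha'4 : ‖a'‖ < 1 := by linarith
  have hU1 : U r a' (f m) ≤ ε / 2 :=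
    ((hSU (f m) a' (hf m) ha'4).1 r₁ r hr0 b1 hr1).trans (hm m a' ha'3 ha'B)
  have c1 : ∀ z : ℂ, ‖z‖ = r → ‖f' z - f m z‖ ≤ κ / 8 := by
    intro z hz
    have := hm₀ m hmm z (by rw [mem_closedBall_zero_iff, hz]; exact b2)
    rw [dist_eq_norm] at this
    exact this.le
  have c2 : ∀ z : ℂ, ‖z‖ = r → ‖g z - f m z‖ ≤ η := fun z hz => hgf z (by rw [hz]; exact b2)
  have c3 : ∀ z : ℂ, ‖z‖ = r → κ / 2 ≤ ‖f m z - a'‖ := by
    intro z hz
    have e1 := b3 z hz
    have e2 := c1 z hz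
    have e3 : ‖f' z - a‖ ≤ ‖f' z - f m z‖ + ‖f m z - a'‖ + ‖a' - a‖ := by
      have : f' z - a = (f' z - f m z) + (f m z - a') + (a' - a) := by ring
      rw [this]
      exact norm_add₃_le
    linarith
  have c4 : ∀ z : ℂ, ‖z‖ = r → κ / 2 ≤ ‖g z - a‖ := by
    intro z hz
    have e1 := b3 z hz
    have e2 := c1 z hz
    have e4 := c2 z hz
    have e3 : ‖f' z - a‖ ≤ ‖f' z - f m z‖ + ‖g z - f m z‖ + ‖g z - a‖ := by
      have : f' z - a = (f' z - f m z) + -(g z - f m z) + (g z - a) := by ring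
      rw [this]
      refine norm_add₃_le.trans_eq ?_
      rw [norm_neg]
    linarith
  have hmem : ∀ z ∈ sphere (0 : ℂ) r, ‖z‖ = r := fun z hz => by simpa using hz
  have hgc : ContinuousOn g (sphere 0 r) := hg.continuousOn.mono fun z hz => by
    rw [mem_ball_zero_iff, hmem z hz]; exact hr1
  have hfc : ContinuousOn (f m) (sphere 0 r) := (hf m).continuousOn.mono fun z hz => by
    rw [mem_closedBall_zero_iff, hmem z hz]; exact hr1.le
  have i1 : CircleIntegrable (fun z => -Real.log ‖tau a (g z)‖) 0 r :=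
    ci hrp.le hgc ha1 (fun z hz => (hg1 z (by rw [hmem z hz]; exact hr1)).le) (fun z hz h => by
      have := c4 z (hmem z hz)
      rw [h, sub_self, norm_zero] at this
      linarith)
  have i2 : CircleIntegrable (fun z => -Real.log ‖tau a' (f m z)‖) 0 r :=
    ci hrp.le hfc ha'4 (fun z hz => (hf m).norm_le_one (by rw [hmem z hz]; exact hr1.le)) (fun z hz h => by
      have := c3 z (hmem z hz)
      rw [h, sub_self, norm_zero] at this
      linarith)
  have key : ∀ z : ℂ, ‖z‖ = r → -Real.log ‖tau a (g z)‖ ≤ -Real.log ‖tau a' (f m z)‖ + ε / 2 := by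
    intro z hz
    have hg1' : ‖g z‖ ≤ 1 := (hg1 z (by rw [hz]; exact hr1)).le
    have hf1' : ‖f m z‖ ≤ 1 := (hf m).norm_le_one (by rw [hz]; exact hr1.le)
    have d1 : ε / 2 ≤ ‖1 - (starRingEnd ℂ) a * g z‖ := by
      have e1 : ‖(1 : ℂ)‖ - ‖(starRingEnd ℂ) a * g z‖ ≤ ‖1 - (starRingEnd ℂ) a * g z‖ := norm_sub_norm_le _ _
      rw [norm_one, norm_mul, Complex.norm_conj] at e1
      have e2 : ‖a‖ * ‖g z‖ ≤ ‖a‖ * 1 := mul_le_mul_of_nonneg_left hg1' (norm_nonneg _)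
      linarith
    have d2 : ε / 2 ≤ ‖1 - (starRingEnd ℂ) a' * f m z‖ := by
      have e1 : ‖(1 : ℂ)‖ - ‖(starRingEnd ℂ) a' * f m z‖ ≤ ‖1 - (starRingEnd ℂ) a' * f m z‖ :=
        norm_sub_norm_le _ _
      rw [norm_one, norm_mul, Complex.norm_conj] at e1
      have e2 : ‖a'‖ * ‖f m z‖ ≤ ‖a'‖ * 1 := mul_le_mul_of_nonneg_left hf1' (norm_nonneg _)
      linarith
    have e1 := c3 z hz
    have e2 := c4 z hz
    have t1 : ‖tau a (g z)‖ = ‖g z - a‖ / ‖1 - (starRingEnd ℂ) a * g z‖ := norm_div _ _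
    have t2 : ‖tau a' (f m z)‖ = ‖f m z - a'‖ / ‖1 - (starRingEnd ℂ) a' * f m z‖ := norm_div _ _
    rw [t1, t2, Real.log_div (by linarith) (by linarith), Real.log_div (by linarith) (by linarith)]
    have l1 := log_diff (by positivity : 0 < κ / 2) e1 e2
    have l2 := log_diff (by positivity : 0 < ε / 2) d1 d2
    have s1 : |‖f m z - a'‖ - ‖g z - a‖| ≤ 2 * η := by
      refine (abs_norm_sub_norm_le _ _).trans ?_
      have : f m z - a' - (g z - a) = -(g z - f m z) + -(a' - a) := by ring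
      rw [this]
      refine (norm_add_le _ _).trans ?_
      rw [norm_neg, norm_neg]
      linarith [c2 z hz]
    have s2 : |‖1 - (starRingEnd ℂ) a * g z‖ - ‖1 - (starRingEnd ℂ) a' * f m z‖| ≤ 2 * η := by
      refine (abs_norm_sub_norm_le _ _).trans ?_
      have : 1 - (starRingEnd ℂ) a * g z - (1 - (starRingEnd ℂ) a' * f m z) =
          (starRingEnd ℂ) (a' - a) * f m z - (starRingEnd ℂ) a * (g z - f m z) := by
        rw [map_sub]; ring
      rw [this]
      refine (norm_sub_le _ _).trans ?_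
      rw [norm_mul, norm_mul, Complex.norm_conj, Complex.norm_conj]
      have p1 : ‖a' - a‖ * ‖f m z‖ ≤ η * 1 := mul_le_mul ha'2 hf1' (norm_nonneg _) hη0.le
      have p2 : ‖a‖ * ‖g z - f m z‖ ≤ 1 * η := mul_le_mul ha1.le (c2 z hz) (norm_nonneg _) zero_le_one
      linarith
    have q1 : |‖f m z - a'‖ - ‖g z - a‖| / (κ / 2) ≤ ε / 4 := by
      rw [div_le_iff₀ (by positivity)]
      linarith
    have q2 : |‖1 - (starRingEnd ℂ) a * g z‖ - ‖1 - (starRingEnd ℂ) a' * f m z‖| / (ε / 2) ≤ ε / 4 := by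
      rw [div_le_iff₀ (by positivity)]
      linarith
    linarith
  have i3 : CircleIntegrable (fun z => -Real.log ‖tau a' (f m z)‖ + ε / 2) 0 r :=
    i2.add (circleIntegrable_const _ _ _)
  have hmono : Real.circleAverage (fun z => -Real.log ‖tau a (g z)‖) 0 r ≤
      Real.circleAverage (fun z => -Real.log ‖tau a' (f m z)‖ + ε / 2) 0 r := by
    refine Real.circleAverage_mono i1 i3 fun z hz => key z ?_
    rw [mem_sphere_zero_iff_norm, abs_of_pos hrp] at hz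
    exact hz
  have hadd : Real.circleAverage (fun z => -Real.log ‖tau a' (f m z)‖ + ε / 2) 0 r =
      U r a' (f m) + ε / 2 := by
    rw [Real.circleAverage_fun_add i2 (circleIntegrable_const _ _ _), Real.circleAverage_const]
    rfl
  have hfin : U r a g ≤ U r a' (f m) + ε / 2 := by
    rw [← hadd]; exact hmono
  linarith

end Pool.Agent.H93.BP
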