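import Pool.Agent.H93.BP.Avg
import Pool.Agent.H5.BP.Basic
import Pool.Agent.H5.BP.Main

/-!
Project BP: truncation (`S_trunc`).
-/

set_option autoImplicit false

namespace Pool.Agent.H93.BP

open Complex Metric Set Filter Topology Real Pool.Agent.H5.BP MeasureTheory

lemma tau_symm (x y : ℂ) : ‖tau x y‖ = ‖tau y x‖ := by
  rw [tau_norm, tau_norm, norm_sub_rev]
  congr 1
  have h : 1 - (starRingEnd ℂ) x * y = (starRingEnd ℂ) (1 - (starRingEnd ℂ) y * x) := by
    simp only [map_sub, map_one, map_mul, Complex.conj_conj]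
    ring
  rw [h, Complex.norm_conj]

lemma tau_tau_neg {w z : ℂ} (hw : ‖w‖ < 1) (hz : ‖z‖ < 1) : tau w (tau (-w) z) = z := by
  have h1 : 1 + (starRingEnd ℂ) w * z ≠ 0 := by
    have := den_ne (w := -w) (z := z) (by rwa [norm_neg]) hz.le
    simpa using this
  have h2 : 1 - (starRingEnd ℂ) w * w ≠ 0 := den_ne hw hw.le
  have e1 : tau (-w) z = (z + w) / (1 + (starRingEnd ℂ) w * z) := by
    unfold tau
    simp
  have hd : (z + w) / (1 + (starRingEnd ℂ) w * z) * (1 + (starRingEnd ℂ) w * z) = z + w :=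
    div_mul_cancel₀ _ h1
  have e2 : tau (-w) z - w = z * (1 - (starRingEnd ℂ) w * w) / (1 + (starRingEnd ℂ) w * z) := by
    rw [e1, eq_div_iff h1, sub_mul, hd]; ring
  have e3 : 1 - (starRingEnd ℂ) w * tau (-w) z = (1 - (starRingEnd ℂ) w * w) / (1 + (starRingEnd ℂ) w * z) := by
    rw [e1, eq_div_iff h1, sub_mul, mul_assoc, hd]; ring
  have : tau w (tau (-w) z) = (tau (-w) z - w) / (1 - (starRingEnd ℂ) w * tau (-w) z) := rfl
  rw [this, e2, e3, div_div_div_cancel_right₀ h1, mul_div_assoc, div_self h2, mul_one]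

/-- pseudohyperbolic distances are invariant -/
lemma tau_inv {w z x : ℂ} (hw : ‖w‖ < 1) (hz : ‖z‖ < 1) (hx : ‖x‖ < 1) :
    ‖tau (tau (-w) z) x‖ = ‖tau (tau w x) z‖ := by
  have h1 : 1 + (starRingEnd ℂ) w * z ≠ 0 := by
    have := den_ne (w := -w) (z := z) (by rwa [norm_neg]) hz.le
    simpa using this
  have h1' : 1 + w * (starRingEnd ℂ) z ≠ 0 := by
    have h := (map_ne_zero (starRingEnd ℂ)).2 h1
    simpa using h
  have h3 : 1 - (starRingEnd ℂ) w * x ≠ 0 := den_ne hw hx.le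
  have h3' : 1 - w * (starRingEnd ℂ) x ≠ 0 := by
    have h := (map_ne_zero (starRingEnd ℂ)).2 h3
    simpa using h
  have e1 : tau (-w) z = (z + w) / (1 + (starRingEnd ℂ) w * z) := by
    unfold tau
    simp
  have e1' : (starRingEnd ℂ) (tau (-w) z) = ((starRingEnd ℂ) z + (starRingEnd ℂ) w) / (1 + w * (starRingEnd ℂ) z) := by
    rw [e1]; simp
  have e2 : tau w x = (x - w) / (1 - (starRingEnd ℂ) w * x) := rfl
  have e2' : (starRingEnd ℂ) (tau w x) = ((starRingEnd ℂ) x - (starRingEnd ℂ) w) / (1 - w * (starRingEnd ℂ) x) := by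
    rw [e2]; simp
  rw [tau_symm (tau w x) z, tau_norm, tau_norm, e1', ← Complex.norm_conj (1 - _ * tau w x)]
  have a1 : x - tau (-w) z = (x * (1 + (starRingEnd ℂ) w * z) - (z + w)) / (1 + (starRingEnd ℂ) w * z) := by
    rw [eq_div_iff h1, e1, sub_mul, div_mul_cancel₀ _ h1]
  have a2 : 1 - ((starRingEnd ℂ) z + (starRingEnd ℂ) w) / (1 + w * (starRingEnd ℂ) z) * x =
      ((1 + w * (starRingEnd ℂ) z) - ((starRingEnd ℂ) z + (starRingEnd ℂ) w) * x) / (1 + w * (starRingEnd ℂ) z) := by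
    rw [eq_div_iff h1', sub_mul, one_mul, mul_right_comm, div_mul_cancel₀ _ h1']
  have a3 : tau w x - z = (x - w - z * (1 - (starRingEnd ℂ) w * x)) / (1 - (starRingEnd ℂ) w * x) := by
    rw [eq_div_iff h3, e2, sub_mul, div_mul_cancel₀ _ h3]
  have a4 : (starRingEnd ℂ) (1 - (starRingEnd ℂ) z * tau w x) =
      ((1 - w * (starRingEnd ℂ) x) - z * ((starRingEnd ℂ) x - (starRingEnd ℂ) w)) / (1 - w * (starRingEnd ℂ) x) := by
    simp only [map_sub, map_one, map_mul, Complex.conj_conj]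
    rw [e2', eq_div_iff h3', sub_mul, one_mul, mul_assoc, div_mul_cancel₀ _ h3']
  rw [a1, a2, a3, a4]
  have b1 : ‖1 + w * (starRingEnd ℂ) z‖ = ‖1 + (starRingEnd ℂ) w * z‖ := by
    rw [← Complex.norm_conj]; simp
  have b2 : ‖1 - w * (starRingEnd ℂ) x‖ = ‖1 - (starRingEnd ℂ) w * x‖ := by
    rw [← Complex.norm_conj]; simp
  have b3 : x * (1 + (starRingEnd ℂ) w * z) - (z + w) = x - w - z * (1 - (starRingEnd ℂ) w * x) := by ring
  have b4 : ‖(1 - w * (starRingEnd ℂ) x) - z * ((starRingEnd ℂ) x - (starRingEnd ℂ) w)‖ =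
      ‖(1 + w * (starRingEnd ℂ) z) - ((starRingEnd ℂ) z + (starRingEnd ℂ) w) * x‖ := by
    rw [← Complex.norm_conj]
    congr 1
    simp only [map_sub, map_one, map_mul, Complex.conj_conj]
    ring
  rw [norm_div, norm_div, norm_div, norm_div, b1, b2, b3, b4]
  have c1 : ‖1 + (starRingEnd ℂ) w * z‖ ≠ 0 := norm_ne_zero_iff.2 h1
  have c2 : ‖1 - (starRingEnd ℂ) w * x‖ ≠ 0 := norm_ne_zero_iff.2 h3
  rw [div_div_div_cancel_right₀ c1, div_div_div_cancel_right₀ c2]

theorem trunc (hfac : S_fac) : S_trunc := by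
  intro f w s δ hf hw hs0 hs1 hδ0 hδ1 hU
  have hpi : (0 : ℝ) < 2 * π := by positivity
  have hzs : ∀ θ : ℝ, ‖circleMap 0 s θ‖ = s := fun θ => by
    rw [norm_circleMap_zero, abs_of_pos hs0]
  have hzd : ∀ θ : ℝ, ‖circleMap 0 δ θ‖ = δ := fun θ => by
    rw [norm_circleMap_zero, abs_of_pos hδ0]
  have hfm : Measurable fun θ : ℝ => f (circleMap 0 s θ) := by
    refine Continuous.measurable (continuous_iff_continuousAt.2 fun θ => ?_)
    exact ContinuousAt.comp (f := fun θ => circleMap 0 s θ) (g := f)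
      (hf.differentiableAt (by rw [hzs]; exact hs1.le)).continuousAt
      (continuous_circleMap 0 s).continuousAt
  have hf1 : ∀ θ : ℝ, ‖f (circleMap 0 s θ)‖ < 1 := fun θ => hf.norm_lt_one (by rw [hzs]; exact hs1)
  obtain ⟨y, hy⟩ : ∃ y : ℝ → ℂ, ∀ θ, y θ = tau w (f (circleMap 0 s θ)) := ⟨_, fun _ => rfl⟩
  have hym : Measurable y := by
    have : y = fun θ => (f (circleMap 0 s θ) - w) / (1 - (starRingEnd ℂ) w * f (circleMap 0 s θ)) :=
      funext fun θ => hy θ
    rw [this]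
    exact (hfm.sub_const w).div ((hfm.const_mul _).const_sub 1)
  have hy1 : ∀ θ, ‖y θ‖ < 1 := fun θ => by rw [hy]; exact norm_tau_lt hw (hf1 θ)
  obtain ⟨ν, hν⟩ : ∃ ν : Measure ℝ, ν = volume.restrict (Ioc 0 (2 * π)) := ⟨_, rfl⟩
  have hνf : IsFiniteMeasure ν := by
    rw [hν]; infer_instance
  have hν1 : ν.real Set.univ = 2 * π := by
    rw [hν]; simp [Measure.real, Real.pi_pos.le]
  have havg : ∀ (g : ℂ → ℝ) (r : ℝ), Real.circleAverage g 0 r = (2 * π)⁻¹ * ∫ θ, g (circleMap 0 r θ) ∂ν := by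
    intro g r
    rw [Real.circleAverage_def, intervalIntegral.integral_of_le hpi.le, hν, smul_eq_mul]
  have hint : ∀ (g : ℂ → ℝ) (r : ℝ), CircleIntegrable g 0 r → Integrable (fun θ => g (circleMap 0 r θ)) ν := by
    intro g r h
    rw [hν]
    exact (intervalIntegrable_iff_integrableOn_Ioc_of_le hpi.le).1 h
  obtain ⟨F, hF⟩ : ∃ F : ℝ → ℝ → ℝ, ∀ θ φ, F θ φ = -Real.log ‖tau (y θ) (circleMap 0 δ φ)‖ :=
    ⟨_, fun _ _ => rfl⟩
  have hF0 : ∀ θ φ, 0 ≤ F θ φ := by
    intro θ φ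
    rw [hF]
    have := norm_tau_lt (hy1 θ) (w := circleMap 0 δ φ) (by rw [hzd]; exact hδ1)
    have := Real.log_nonpos (norm_nonneg _) this.le
    linarith
  have hFm : Measurable (Function.uncurry F) := by
    have : Function.uncurry F = fun q : ℝ × ℝ => -Real.log ‖(circleMap 0 δ q.2 - y q.1) /
        (1 - (starRingEnd ℂ) (y q.1) * circleMap 0 δ q.2)‖ := by
      funext q
      exact hF q.1 q.2
    rw [this]
    have m1 : Measurable fun q : ℝ × ℝ => circleMap 0 δ q.2 :=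
      (continuous_circleMap 0 δ).measurable.comp measurable_snd
    have m2 : Measurable fun q : ℝ × ℝ => y q.1 := hym.comp measurable_fst
    have m3 : Measurable fun q : ℝ × ℝ => (starRingEnd ℂ) (y q.1) :=
      Complex.continuous_conj.measurable.comp m2
    exact ((Real.measurable_log.comp ((m1.sub m2).div ((m3.mul m1).const_sub 1)).norm)).neg
  -- the inner integral
  have hin : ∀ θ, Integrable (F θ) ν ∧ ∫ φ, F θ φ ∂ν = (2 * π) * -Real.log (max δ ‖y θ‖) := by
    intro θ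
    obtain ⟨i1, a1⟩ := tau_avg (hy1 θ) hδ0 hδ1
    rw [havg] at a1
    have e : F θ = fun φ => -Real.log ‖tau (y θ) (circleMap 0 δ φ)‖ := funext fun φ => hF θ φ
    refine ⟨?_, ?_⟩
    · rw [e]; exact hint _ _ i1
    · rw [e, ← a1]
      field_simp
  have hbd : ∀ θ, ‖(2 * π) * -Real.log (max δ ‖y θ‖)‖ ≤ (2 * π) * -Real.log δ := by
    intro θ
    have h1 : Real.log (max δ ‖y θ‖) ≤ 0 :=
      Real.log_nonpos (le_max_of_le_left hδ0.le) (max_le hδ1.le (hy1 θ).le)
    have h2 : Real.log δ ≤ Real.log (max δ ‖y θ‖) := Real.log_le_log hδ0 (le_max_left _ _)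
    rw [Real.norm_eq_abs, abs_of_nonneg (mul_nonneg hpi.le (by linarith))]
    exact mul_le_mul_of_nonneg_left (by linarith) hpi.le
  have hFi : Integrable (Function.uncurry F) (ν.prod ν) := by
    rw [integrable_prod_iff hFm.aestronglyMeasurable]
    refine ⟨Eventually.of_forall fun θ => (hin θ).1, ?_⟩
    have e : (fun θ => ∫ φ, ‖Function.uncurry F (θ, φ)‖ ∂ν) = fun θ => (2 * π) * -Real.log (max δ ‖y θ‖) := by
      funext θ
      rw [← (hin θ).2]
      refine integral_congr_ae (Eventually.of_forall fun φ => ?_)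
      exact Real.norm_of_nonneg (hF0 θ φ)
    rw [e]
    refine Integrable.of_bound ?_ _ (Eventually.of_forall hbd)
    exact ((Real.measurable_log.comp (measurable_const.max hym.norm)).neg.const_mul _).aestronglyMeasurable
  -- the hypothesis
  have hout : ∀ φ, U s w f ≤ 6 * ((2 * π)⁻¹ * ∫ θ, F θ φ ∂ν) := by
    intro φ
    have hζ : ‖circleMap 0 δ φ‖ < 1 := by rw [hzd]; exact hδ1
    have h1 := hU (tau (-w) (circleMap 0 δ φ)) (norm_tau_lt (by rwa [norm_neg]) hζ)
      (by rw [tau_tau_neg hw hζ, hzd])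
    refine h1.trans_eq ?_
    unfold U
    rw [havg]
    congr 2
    refine integral_congr_ae (Eventually.of_forall fun θ => ?_)
    simp only
    rw [tau_inv hw hζ (hf1 θ), hF, hy]
  have hsw : ∫ φ, ∫ θ, F θ φ ∂ν ∂ν = ∫ θ, ∫ φ, F θ φ ∂ν ∂ν := (integral_integral_swap hFi).symm
  have h2 : ∫ _φ : ℝ, U s w f ∂ν ≤ ∫ φ, 6 * ((2 * π)⁻¹ * ∫ θ, F θ φ ∂ν) ∂ν := by
    refine integral_mono (integrable_const _) ?_ hout
    exact (hFi.integral_prod_right.const_mul _).const_mul _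
  rw [integral_const, hν1, smul_eq_mul, integral_const_mul, integral_const_mul, hsw] at h2
  -- the average of the minimum
  have h3 : ∫ θ, ∫ φ, F θ φ ∂ν ∂ν =
      (2 * π) * ∫ θ, min (-Real.log ‖tau w (f (circleMap 0 s θ))‖) (-Real.log δ) ∂ν := by
    rw [← integral_const_mul]
    refine integral_congr_ae ?_
    obtain ⟨Z, l, hl, hZ, hfz⟩ := hfac f hf w hw
    have hc : (circleMap 0 s ⁻¹' {v | v ∈ Z}).Countable := by
      refine Set.Countable.preimage_circleMap ?_ 0 hs0.ne'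
      have : {v | v ∈ Z} = (Z.toFinset : Set ℂ) := by ext v; simp
      rw [this]
      exact Z.toFinset.countable_toSet
    have hn : ν (circleMap 0 s ⁻¹' {v | v ∈ Z}) = 0 := by
      rw [hν]
      exact hc.measure_zero _
    filter_upwards [compl_mem_ae_iff.2 hn] with θ hθ
    rw [(hin θ).2]
    congr 1
    have hne : y θ ≠ 0 := by
      rw [hy, hfz _ (by rw [hzs]; exact hs1.le)]
      refine mul_ne_zero (fun h => by rw [h, norm_zero] at hl; exact zero_ne_one hl) ?_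
      refine Multiset.prod_ne_zero fun h => ?_
      obtain ⟨v, hv, hv0⟩ := Multiset.mem_map.1 h
      refine tau_ne (hZ v hv) (by rw [hzs]; exact hs1.le) ?_ hv0
      intro h
      apply hθ
      show circleMap 0 s θ ∈ Z
      rw [h]; exact hv
    rw [← hy]
    have hyp : 0 < ‖y θ‖ := norm_pos_iff.2 hne
    rcases le_total δ ‖y θ‖ with h | h
    · rw [max_eq_right h, min_eq_left (neg_le_neg (Real.log_le_log hδ0 h))]
    · rw [max_eq_left h, min_eq_right (neg_le_neg (Real.log_le_log hyp h))]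
  rw [h3] at h2
  rw [havg]
  have h4 : 2 * π * U s w f ≤ 2 * π * (6 * ((2 * π)⁻¹ * ∫ θ, min (-Real.log ‖tau w (f (circleMap 0 s θ))‖)
      (-Real.log δ) ∂ν)) := by
    refine h2.trans_eq ?_
    ring
  exact le_of_mul_le_mul_left h4 hpi

end Pool.Agent.H93.BP
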